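import Mathlib
import Pool.Agent.H358R5.Gaps

/-!
# Clusters of four primes between consecutive fifth powers

The question asks for a prime quadruplet `(p, p+2, p+6, p+8)` between `n^5` and `(n+1)^5` for every `n`.
We show that for every `ε > 0` and all large `N` at least `N^(1-ε)` of the `n ≤ N` have four primes
`p < q < r < s` with `s - p ≤ 4209616` between `n^5` and `(n+1)^5`.

The input is the theorem `gaps4` of the starting library (`Pool/Agent/H358R5/Gaps.lean`): there are at least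
`x^(1-ε)` indices `k` with `p_k ≤ x` and `p_(k+3) ≤ p_k + 4209616` (the sieve of Maynard, Tao and Polymath with
a good distribution of primes, and an admissible `290687`-tuple of diameter `4209616`).  At most `31 (N+1)^4` of
these `p_k` lie between two given consecutive fifth powers, and at most `4209617 (N+1)` are so close below a fifth
power that the cluster is not between two consecutive ones.
-/

set_option autoImplicit false

namespace Pool.Agent.Results.MP_c03ca8_nt.FourPrimeClusters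

open Finset Filter

/-- There are primes `p < q < r < s` with `s ≤ p + 4209616` between `n^5` and `(n+1)^5`. -/
def Cluster (n : ℕ) : Prop :=
  ∃ p q r s : ℕ, p.Prime ∧ q.Prime ∧ r.Prime ∧ s.Prime ∧ n ^ 5 < p ∧ p < q ∧ q < r ∧ r < s ∧
    s < (n + 1) ^ 5 ∧ s ≤ p + 4209616

theorem count (N : ℕ) (x : ℝ) (hx : x = ((N + 1) ^ 5 : ℕ)) :
    (Set.ncard {k : ℕ | (Nat.nth Nat.Prime k : ℝ) ≤ x ∧
      Nat.nth Nat.Prime (k + 3) ≤ Nat.nth Nat.Prime k + 4209616}) ≤
    ({n : ℕ | n ≤ N ∧ Cluster n}).ncard * (31 * (N + 1) ^ 4) + (N + 1) * 4209617 := by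
  classical
  set G : Finset ℕ := (range (N + 1)).filter Cluster with hG
  have hGc : ({n : ℕ | n ≤ N ∧ Cluster n}).ncard = G.card := by
    rw [← Set.ncard_coe_finset]
    congr 1
    ext n
    simp [hG]
  rw [hGc]
  set A : Finset ℕ := G.biUnion fun n => Ico (n ^ 5) ((n + 1) ^ 5)
  set B : Finset ℕ := (range (N + 1)).biUnion fun n => Icc ((n + 1) ^ 5 - 4209616) ((n + 1) ^ 5)
  have hsub : (Nat.nth Nat.Prime) '' {k : ℕ | (Nat.nth Nat.Prime k : ℝ) ≤ x ∧
      Nat.nth Nat.Prime (k + 3) ≤ Nat.nth Nat.Prime k + 4209616} ⊆ ((A ∪ B : Finset ℕ) : Set ℕ) := by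
    rintro _ ⟨k, ⟨h1, h2⟩, rfl⟩
    set p := Nat.nth Nat.Prime k with hp
    have hpp : p.Prime := Nat.prime_nth_prime k
    have hle : p ≤ (N + 1) ^ 5 := by
      rw [hx] at h1; exact_mod_cast h1
    have hne : ∀ m : ℕ, m ^ 5 ≠ p := fun m h => (Nat.Prime.not_prime_pow (n := 5) (by norm_num)) (h ▸ hpp)
    have hlt : p < (N + 1) ^ 5 := lt_of_le_of_ne hle (fun h => hne _ h.symm)
    -- the block of p
    have hex : ∃ n, p < (n + 1) ^ 5 := ⟨N, hlt⟩
    set n := Nat.find hex with hn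
    have hn1 : p < (n + 1) ^ 5 := Nat.find_spec hex
    have hnN : n ≤ N := Nat.find_min' hex hlt
    have hn2 : n ^ 5 ≤ p := by
      rcases Nat.eq_zero_or_pos n with h | h
      · rw [h]; simp
      · have := Nat.find_min hex (m := n - 1) (by omega)
        rw [show n - 1 + 1 = n by omega] at this
        omega
    have hn3 : n ^ 5 < p := lt_of_le_of_ne hn2 (hne n)
    rw [Finset.coe_union]
    by_cases hb : p + 4209616 < (n + 1) ^ 5
    · left
      have hmono := Nat.nth_strictMono Nat.infinite_setOfPred_prime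
      have hc : Cluster n := ⟨p, Nat.nth Nat.Prime (k + 1), Nat.nth Nat.Prime (k + 2),
        Nat.nth Nat.Prime (k + 3), hpp, Nat.prime_nth_prime _, Nat.prime_nth_prime _,
        Nat.prime_nth_prime _, hn3, hmono (by omega), hmono (by omega), hmono (by omega),
        by omega, h2⟩
      simp only [A, Finset.coe_biUnion, Set.mem_iUnion, Finset.mem_coe, hG, Finset.mem_filter,
        Finset.mem_range, Finset.coe_Ico, Set.mem_Ico]
      exact ⟨n, ⟨by omega, hc⟩, hn2, hn1⟩
    · right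
      simp only [B, Finset.coe_biUnion, Set.mem_iUnion, Finset.mem_coe,
        Finset.mem_range, Finset.coe_Icc, Set.mem_Icc]
      exact ⟨n, by omega, by omega, by omega⟩
  have hinj : Function.Injective (Nat.nth Nat.Prime) := (Nat.nth_strictMono Nat.infinite_setOfPred_prime).injective
  have h1 : (Set.ncard {k : ℕ | (Nat.nth Nat.Prime k : ℝ) ≤ x ∧
      Nat.nth Nat.Prime (k + 3) ≤ Nat.nth Nat.Prime k + 4209616}) ≤ (A ∪ B).card := by
    rw [← Set.ncard_image_of_injective _ hinj, ← Set.ncard_coe_finset]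
    exact Set.ncard_le_ncard hsub (Finset.finite_toSet _)
  have hA : A.card ≤ G.card * (31 * (N + 1) ^ 4) := by
    apply Finset.card_biUnion_le_card_mul
    intro n hn
    rw [hG, Finset.mem_filter, Finset.mem_range] at hn
    rw [Nat.card_Ico]
    have h5 : (n + 1) ^ 5 ≤ n ^ 5 + 31 * (n + 1) ^ 4 := by
      nlinarith [Nat.zero_le n, Nat.zero_le (n^2), Nat.zero_le (n^3), Nat.zero_le (n^4)]
    have h6 : (n + 1) ^ 4 ≤ (N + 1) ^ 4 := Nat.pow_le_pow_left (by omega) 4
    omega
  have hB : B.card ≤ (N + 1) * 4209617 := by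
    have := Finset.card_biUnion_le_card_mul (range (N + 1))
      (fun n => Icc ((n + 1) ^ 5 - 4209616) ((n + 1) ^ 5)) 4209617 (by
        intro n _
        rw [Nat.card_Icc]
        omega)
    rwa [Finset.card_range] at this
  calc _ ≤ (A ∪ B).card := h1
    _ ≤ A.card + B.card := Finset.card_union_le _ _
    _ ≤ _ := by omega

/-- For every `ε > 0` and all large `N` there are at least `N ^ (1 - ε)` numbers `n ≤ N` such that four primes of
an interval of length `4209616` lie between `n^5` and `(n+1)^5`. -/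
theorem result (ε : ℝ) (hε : 0 < ε) : ∀ᶠ N : ℕ in atTop,
    (N : ℝ) ^ (1 - ε) ≤ (({n : ℕ | n ≤ N ∧ Cluster n}).ncard : ℝ) := by
  have ht : Tendsto (fun N : ℕ => (((N + 1) ^ 5 : ℕ) : ℝ)) atTop atTop := by
    refine tendsto_natCast_atTop_atTop.comp ?_
    refine tendsto_atTop_mono (fun N => ?_) tendsto_id
    calc id N ≤ N + 1 := by simp
      _ = (N + 1) ^ 1 := (pow_one _).symm
      _ ≤ (N + 1) ^ 5 := Nat.pow_le_pow_right (by omega) (by norm_num)
  have hg := ht.eventually (Pool.Agent.H358R5.gaps4 (min ε 1 / 10) (by positivity))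
  set e : ℝ := min ε 1 with he
  have he0 : 0 < e := by positivity
  have he1 : e ≤ 1 := min_le_right _ _
  have heε : e ≤ ε := min_le_left _ _
  -- (N+1)^(e/2) ≥ 4209648 + ...
  have hbig : ∀ᶠ N : ℕ in atTop, (4209648 + 4209617 : ℝ) ≤ ((N : ℝ) + 1) ^ (e / 2) := by
    have h1 : Tendsto (fun N : ℕ => ((N : ℝ) + 1) ^ (e / 2)) atTop atTop :=
      (tendsto_rpow_atTop (by positivity : 0 < e / 2)).comp
        (tendsto_atTop_add_const_right _ 1 tendsto_natCast_atTop_atTop)
    exact h1.eventually_ge_atTop _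
  filter_upwards [hg, hbig, eventually_ge_atTop 1] with N h1 h2 hN
  have h3 := count N _ rfl
  set c : ℕ := ({n : ℕ | n ≤ N ∧ Cluster n}).ncard with hc
  set M : ℝ := (N : ℝ) + 1 with hM
  have hM1 : 1 ≤ M := by rw [hM]; have : (0:ℝ) ≤ N := Nat.cast_nonneg N; linarith
  have hM0 : 0 < M := by linarith
  have h4 : (((N + 1) ^ 5 : ℕ) : ℝ) ^ (1 - e / 10) = M ^ (5 - e / 2) := by
    push_cast
    rw [← hM, ← Real.rpow_natCast, ← Real.rpow_mul hM0.le]
    congr 1
    push_cast; ring
  rw [h4] at h1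
  have h5 : M ^ (5 - e / 2) ≤ c * (31 * M ^ 4) + M * 4209617 := by
    refine h1.trans ?_
    have : ((Set.ncard {k : ℕ | (Nat.nth Nat.Prime k : ℝ) ≤ (((N + 1) ^ 5 : ℕ) : ℝ) ∧
      Nat.nth Nat.Prime (k + 3) ≤ Nat.nth Nat.Prime k + 4209616} : ℕ) : ℝ) ≤
      ((c * (31 * (N + 1) ^ 4) + (N + 1) * 4209617 : ℕ) : ℝ) := by exact_mod_cast h3
    refine this.trans (le_of_eq ?_)
    push_cast
    rw [hM]
  -- M^(5 - e/2) = M^4 * M^(1-e) * M^(e/2)
  have h6 : M ^ (5 - e / 2) = M ^ 4 * (M ^ (1 - e) * M ^ (e / 2)) := by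
    rw [← Real.rpow_natCast M 4, ← Real.rpow_add hM0, ← Real.rpow_add hM0]
    congr 1
    push_cast; ring
  have h7 : 1 ≤ M ^ (1 - e) := Real.one_le_rpow hM1 (by linarith)
  have hM4 : M ≤ M ^ 4 := by
    calc M = M ^ 1 := (pow_one _).symm
      _ ≤ M ^ 4 := pow_le_pow_right₀ hM1 (by norm_num)
  have h8 : M ^ 4 * (M ^ (1 - e) * (4209648 + 4209617)) ≤ c * (31 * M ^ 4) + M * 4209617 := by
    refine le_trans ?_ h5
    rw [h6]
    gcongr
  have hM40 : 0 < M ^ 4 := by positivity
  have h9 : M ^ (1 - e) * 4209648 ≤ c * 31 := by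
    by_contra hcon
    push Not at hcon
    have h10 : (c * 31) * M ^ 4 < (M ^ (1 - e) * 4209648) * M ^ 4 := by gcongr
    have h11 : M * 4209617 ≤ M ^ 4 * (M ^ (1 - e) * 4209617) := by
      calc M * 4209617 ≤ M ^ 4 * (1 * 4209617) := by nlinarith
        _ ≤ _ := by gcongr
    nlinarith
  have h10 : (N : ℝ) ^ (1 - ε) ≤ M ^ (1 - e) := by
    have hNr : (1 : ℝ) ≤ N := by exact_mod_cast hN
    calc (N : ℝ) ^ (1 - ε) ≤ (N : ℝ) ^ (1 - e) := Real.rpow_le_rpow_of_exponent_le hNr (by linarith)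
      _ ≤ M ^ (1 - e) := Real.rpow_le_rpow (by linarith) (by linarith) (by linarith)
  have h11 : (0 : ℝ) ≤ c := Nat.cast_nonneg c
  linarith

end Pool.Agent.Results.MP_c03ca8_nt.FourPrimeClusters
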