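import Pool.Agent.V11237.LP.PtInst

set_option autoImplicit false

/-!
# Almost prime quadruplets between consecutive fifth powers (and other powers): their number and the
laws of their gaps
-/

namespace Pool.Agent.Results.MP_c03ca8_nt.QuadrupletLawsBetweenPowers

open Finset
open Pool.Agent.V11237.LP.Pt

/-- **Theorem.** Let `a ≥ 2` (`a = 5` for fifth powers), `l₀`, `x₀` and `ε > 0`. There is `r₀` such that for
all `r ≥ r₀` and ALL large `m` the following holds with `N = (m + 1) ^ a`. Call `n ≡ 11` modulo `30` good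
if none of `n, n + 2, n + 6, n + 8` has a prime factor `p ≤ N ^ (1 / r)`; for `n < N` these four numbers
then have at most `r` prime factors. For all `l` and `T` with `l ≤ l₀` or `T V ≤ x₀` the number of the
good `n` with `m ^ a < n < n + 8 < (m + 1) ^ a` and with fewer than `l` good integers in `[n - T, n)` is
`((m + 1) ^ a - m ^ a) V ∑_{j < l} e ^ (-T V) (T V) ^ j / j!` up to at most `ε ((m + 1) ^ a - m ^ a) V`,
where `V > 0` is the product of `1 - 4 / p` over the primes `5 < p ≤ N ^ (1 / r)`, divided by `30`. (For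
`l = 1` and `T = 0` this is the number of all the good quadruplets between the two powers.) -/
theorem result (a : ℕ) (ha : 2 ≤ a) (l₀ : ℕ) (x₀ ε : ℝ) (hε : 0 < ε) :
    ∃ r₀ : ℕ, 2 ≤ r₀ ∧ ∀ r : ℕ, r₀ ≤ r → ∃ m₀ : ℕ, ∀ m : ℕ, m₀ ≤ m →
      ((∀ n : ℕ, n < (m + 1) ^ a → Good 30 11 ![0, 2, 6, 8] ((m + 1) ^ a) r n →
          ∀ i, (n + ![0, 2, 6, 8] i).primeFactorsList.length ≤ r) ∧ 0 < V 5 30 4 ((m + 1) ^ a) r) ∧
      ∀ l T : ℕ, (l ≤ l₀ ∨ T * V 5 30 4 ((m + 1) ^ a) r ≤ x₀) →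
        |(G 30 11 ![0, 2, 6, 8] ((m + 1) ^ a) r l T (m ^ a) ((m + 1) ^ a) 8 : ℝ) -
          ((m + 1) ^ a - m ^ a) * V 5 30 4 ((m + 1) ^ a) r *
            ∑ j ∈ range l, Real.exp (-(T * V 5 30 4 ((m + 1) ^ a) r)) *
              (T * V 5 30 4 ((m + 1) ^ a) r) ^ j / j.factorial| ≤
        ε * (((m + 1) ^ a - m ^ a) * V 5 30 4 ((m + 1) ^ a) r) :=
  between pat_quad (by decide) 8 a ha l₀ x₀ ε hε

end Pool.Agent.Results.MP_c03ca8_nt.QuadrupletLawsBetweenPowers
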